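import Pool.Agent.Helper86.MaxNorm.Main

open scoped Matrix

noncomputable section

namespace Pool.Agent.Results.MP_3d6eda_nt.MaximalNorm

/-! ## Definitions -/

section Defs

variable (p : ℕ) [Fact p.Prime] (d : ℕ)

/-- `𝒮`: the space of locally constant, compactly supported functions `ℚ_p^d → ℂ_p`. -/
def Sch : Set ((Fin d → ℚ_[p]) → ℂ_[p]) := {f | IsLocallyConstant f ∧ HasCompactSupport f}

/-- `𝟏_{ℤ_p^d}`, the indicator function of `ℤ_p^d`. -/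
def one : (Fin d → ℚ_[p]) → ℂ_[p] := Set.indicator {x | ∀ i, ‖x i‖ ≤ 1} (fun _ => 1)

variable {p d}

/-- The function `ρ([a,b,t]) f`, `(a, b) = w`, of the Schrödinger representation:
`x ↦ ψ(t + (a·b)/2) ψ(b·x) f(x + a)`. -/
def rho (ψ : AddChar ℚ_[p] ℂ_[p]) (w : Fin d ⊕ Fin d → ℚ_[p]) (t : ℚ_[p])
    (f : (Fin d → ℚ_[p]) → ℂ_[p]) : (Fin d → ℚ_[p]) → ℂ_[p] := fun x =>
  ψ (t + 1 / 2 * ∑ i, w (Sum.inl i) * w (Sum.inr i)) * ψ (∑ i, w (Sum.inr i) * x i) *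
    f (fun i => x i + w (Sum.inl i))

/-- `N` (restricted to `𝒮`) is a (non-archimedean) norm on `𝒮`. -/
structure IsNorm (N : ((Fin d → ℚ_[p]) → ℂ_[p]) → ℝ) : Prop where
  nonneg : ∀ f ∈ Sch p d, 0 ≤ N f
  smul : ∀ (c : ℂ_[p]), ∀ f ∈ Sch p d, N (fun x => c * f x) = ‖c‖ * N f
  add_le : ∀ f ∈ Sch p d, ∀ g ∈ Sch p d, N (fun x => f x + g x) ≤ max (N f) (N g)
  eq_zero : ∀ f ∈ Sch p d, N f = 0 → ∀ x, f x = 0

/-- Invariance of `N` (on `𝒮`) under the Heisenberg group. -/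
def IsInvariant (ψ : AddChar ℚ_[p] ℂ_[p]) (N : ((Fin d → ℚ_[p]) → ℂ_[p]) → ℝ) : Prop :=
  ∀ (w : Fin d ⊕ Fin d → ℚ_[p]) (t : ℚ_[p]), ∀ f ∈ Sch p d, N (rho ψ w t f) = N f

/-- The sup norm `‖f‖_∞ = sup_x |f(x)|`. -/
def supNorm (f : (Fin d → ℚ_[p]) → ℂ_[p]) : ℝ := ⨆ x, ‖f x‖

/-- `T` restricts to a linear bijection `𝒮 → 𝒮`. -/
structure IsLinearBij (T : ((Fin d → ℚ_[p]) → ℂ_[p]) → ((Fin d → ℚ_[p]) → ℂ_[p])) : Prop where
  bij : Set.BijOn T (Sch p d) (Sch p d)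
  add : ∀ f ∈ Sch p d, ∀ g ∈ Sch p d, T (fun x => f x + g x) = fun x => T f x + T g x
  smul : ∀ (c : ℂ_[p]), ∀ f ∈ Sch p d, T (fun x => c * f x) = fun x => c * T f x

/-- `T` is an intertwining operator for the symplectic matrix `g` (acting on row vectors on the
right): `T ρ([w,t]) = ρ([wg,t]) T`. -/
def IsIntertwiner (ψ : AddChar ℚ_[p] ℂ_[p]) (g : Matrix (Fin d ⊕ Fin d) (Fin d ⊕ Fin d) ℚ_[p])
    (T : ((Fin d → ℚ_[p]) → ℂ_[p]) → ((Fin d → ℚ_[p]) → ℂ_[p])) : Prop :=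
  IsLinearBij T ∧ ∀ (w : Fin d ⊕ Fin d → ℚ_[p]) (t : ℚ_[p]), ∀ f ∈ Sch p d,
    T (rho ψ w t f) = rho ψ (w ᵥ* g) t (T f)

/-- The set of the values at `f` of the norms `‖·‖_α`, `α = Pg`: all `‖T f‖_∞ / ‖T 𝟏‖_∞`, where
`T` is an intertwining operator for some `g ∈ Sp_{2d}(ℚ_p)`. -/
def grassValues (ψ : AddChar ℚ_[p] ℂ_[p]) (f : (Fin d → ℚ_[p]) → ℂ_[p]) : Set ℝ :=
  {r | ∃ g ∈ Matrix.symplecticGroup (Fin d) ℚ_[p], ∃ T,
    IsIntertwiner ψ g T ∧ r = supNorm (T f) / supNorm (T (one p d))}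

/-- `N_𝒢(f) = sup_α ‖f‖_α`. -/
def NG (ψ : AddChar ℚ_[p] ℂ_[p]) (f : (Fin d → ℚ_[p]) → ℂ_[p]) : ℝ := sSup (grassValues ψ f)

end Defs

/-! ## Comparison with the bundled versions used in the proof -/

section Bridge

open Pool.Agent.Helper86

variable {p : ℕ} [Fact p.Prime] {d : ℕ}

theorem norm_natCast_p (p : ℕ) [Fact p.Prime] : ‖(p : ℂ_[p])‖ = (p : ℝ)⁻¹ := by
  have h := PadicComplex.norm_extends' (p := p) (p : ℚ_[p])
  rw [Padic.norm_p] at h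
  rw [← h]
  norm_cast

theorem rho_eq (ψ : AddChar ℚ_[p] ℂ_[p]) (w : Fin d ⊕ Fin d → ℚ_[p]) (t : ℚ_[p])
    (f : (Fin d → ℚ_[p]) → ℂ_[p]) : rho ψ w t f = MaxNorm.rhoFun ψ w t f := rfl

theorem rho_mem (ψ : AddChar ℚ_[p] ℂ_[p]) (hψ : IsOpen {x : ℚ_[p] | ψ x = 1})
    (w : Fin d ⊕ Fin d → ℚ_[p]) (t : ℚ_[p]) {f : (Fin d → ℚ_[p]) → ℂ_[p]} (hf : f ∈ Sch p d) :
    rho ψ w t f ∈ Sch p d := MaxNorm.rhoFun_mem ψ hψ w t hf

theorem one_mem : one p d ∈ Sch p d := (MaxNorm.one p d ℂ_[p]).2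

theorem grass_eq (ψ : AddChar ℚ_[p] ℂ_[p]) (hψ : IsOpen {x : ℚ_[p] | ψ x = 1})
    (f : MaxNorm.Sch p d ℂ_[p]) : MaxNorm.grassValues ψ hψ f = grassValues ψ f.1 := by
  classical
  ext r
  constructor
  · rintro ⟨g, hg, T, hT, rfl⟩
    set S : ((Fin d → ℚ_[p]) → ℂ_[p]) → ((Fin d → ℚ_[p]) → ℂ_[p]) :=
      fun f => if h : f ∈ Sch p d then (T ⟨f, h⟩).1 else f with hS
    have hSf : ∀ f : MaxNorm.Sch p d ℂ_[p], S f.1 = (T f).1 := by
      intro f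
      have h : f.1 ∈ Sch p d := f.2
      simp only [hS, dif_pos h]
    have hS' : ∀ (f : (Fin d → ℚ_[p]) → ℂ_[p]) (hf : f ∈ Sch p d), S f = (T ⟨f, hf⟩).1 :=
      fun f hf => hSf ⟨f, hf⟩
    refine ⟨g, hg, S, ⟨⟨⟨?_, ?_, ?_⟩, ?_, ?_⟩, ?_⟩, ?_⟩
    · intro f hf
      rw [hS' f hf]
      exact (T ⟨f, hf⟩).2
    · intro f hf f' hf' h
      rw [hS' f hf, hS' f' hf'] at h
      have h2 := T.injective (Subtype.ext h)
      exact congrArg Subtype.val h2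
    · intro f hf
      refine ⟨(T.symm ⟨f, hf⟩).1, (T.symm ⟨f, hf⟩).2, ?_⟩
      rw [hSf, LinearEquiv.apply_symm_apply]
    · intro f hf f' hf'
      have h1 := hSf (⟨f, hf⟩ + ⟨f', hf'⟩)
      rw [map_add] at h1
      rw [hS' f hf, hS' f' hf']
      exact h1
    · intro c f hf
      have h1 := hSf (c • ⟨f, hf⟩)
      rw [map_smul] at h1
      rw [hS' f hf]
      exact h1
    · intro w t f hf
      have h1 := hSf (MaxNorm.rho ψ hψ w t ⟨f, hf⟩)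
      rw [hT w t] at h1
      rw [hS' f hf]
      exact h1
    · have h1 : supNorm (S f.1) = MaxNorm.supNorm (T f) := by rw [hSf]; rfl
      have h2 : supNorm (S (one p d)) = MaxNorm.supNorm (T (MaxNorm.one p d ℂ_[p])) := by
        have : one p d = (MaxNorm.one p d ℂ_[p]).1 := rfl
        rw [this, hSf]; rfl
      rw [h1, h2]
  · rintro ⟨g, hg, T, ⟨hT, hTi⟩, rfl⟩
    set L : MaxNorm.Sch p d ℂ_[p] →ₗ[ℂ_[p]] MaxNorm.Sch p d ℂ_[p] :=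
      { toFun := fun f => ⟨T f.1, hT.bij.mapsTo f.2⟩
        map_add' := fun f g => Subtype.ext (hT.add f.1 f.2 g.1 g.2)
        map_smul' := fun c f => Subtype.ext (hT.smul c f.1 f.2) } with hL
    have hbij : Function.Bijective L := by
      constructor
      · intro f f' h
        exact Subtype.ext (hT.bij.injOn f.2 f'.2 (congrArg Subtype.val h))
      · intro f
        obtain ⟨f', hf', h⟩ := hT.bij.surjOn f.2
        exact ⟨⟨f', hf'⟩, Subtype.ext h⟩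
    refine ⟨g, hg, LinearEquiv.ofBijective L hbij, ?_, rfl⟩
    intro w t f
    apply Subtype.ext
    exact hTi w t f.1 f.2

theorem NG_eq (ψ : AddChar ℚ_[p] ℂ_[p]) (hψ : IsOpen {x : ℚ_[p] | ψ x = 1})
    (f : MaxNorm.Sch p d ℂ_[p]) : MaxNorm.NG ψ hψ f = NG ψ f.1 := by
  unfold MaxNorm.NG NG
  rw [grass_eq]

end Bridge

/-- `N_𝒢` is a (well-defined) invariant norm on `𝒮` which dominates every invariant norm, with the
explicit constant `p^{3d} N(𝟏)`. -/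
theorem result (p : ℕ) [Fact p.Prime] (d : ℕ) (ψ : AddChar ℚ_[p] ℂ_[p])
    (hψ : IsOpen {x : ℚ_[p] | ψ x = 1}) (hψ1 : ∃ x, ψ x ≠ 1) :
    (∀ f ∈ Sch p d, BddAbove (grassValues ψ f)) ∧
    IsNorm (NG (d := d) ψ) ∧ IsInvariant ψ (NG (d := d) ψ) ∧
    ∀ N : ((Fin d → ℚ_[p]) → ℂ_[p]) → ℝ, IsNorm N → IsInvariant ψ N →
      0 < N (one p d) ∧
      ∀ f ∈ Sch p d, N f ≤ (p : ℝ) ^ (3 * d) * N (one p d) * NG ψ f := by
  have h1 : ψ ≠ 1 := by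
    rintro rfl
    obtain ⟨x, hx⟩ := hψ1
    exact hx (AddChar.one_apply x)
  obtain ⟨hA, hB, hC, hD⟩ := Pool.Agent.Helper86.MaxNorm.main (d := d) ψ hψ h1 (norm_natCast_p p)
  refine ⟨fun f hf => ?_, ⟨fun f hf => ?_, fun c f hf => ?_, fun f hf g hg => ?_, fun f hf h => ?_⟩,
    fun w t f hf => ?_, fun N hN hI => ⟨?_, ?_⟩⟩
  · have := hA ⟨f, hf⟩
    rwa [grass_eq] at this
  · have := hB.nonneg ⟨f, hf⟩
    rwa [NG_eq] at this
  · have := hB.smul c ⟨f, hf⟩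
    rwa [NG_eq, NG_eq] at this
  · have := hB.add_le ⟨f, hf⟩ ⟨g, hg⟩
    rwa [NG_eq, NG_eq, NG_eq] at this
  · have := hB.eq_zero ⟨f, hf⟩ (by rwa [NG_eq])
    intro x
    exact congrFun (congrArg Subtype.val this) x
  · have := hC w t ⟨f, hf⟩
    rwa [NG_eq, NG_eq] at this
  · rcases (hN.nonneg (one p d) one_mem).lt_or_eq with h | h
    · exact h
    · exfalso
      have h2 := hN.eq_zero _ one_mem h.symm 0
      have h3 : one p d 0 = 1 :=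
        Pool.Agent.Helper86.MaxNorm.one_apply_of_mem (K := ℂ_[p]) (0 : Fin d → ℚ_[p]) (by simp)
      rw [h3] at h2
      exact one_ne_zero h2
  · intro f hf
    have hN' : Pool.Agent.Helper86.MaxNorm.IsNorm (p := p) (d := d) (K := ℂ_[p])
        (fun f => N f.1) :=
      ⟨fun f => hN.nonneg f.1 f.2, fun c f => hN.smul c f.1 f.2,
        fun f g => hN.add_le f.1 f.2 g.1 g.2,
        fun f hf => Subtype.ext (funext fun x => hN.eq_zero f.1 f.2 hf x)⟩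
    have hI' : Pool.Agent.Helper86.MaxNorm.IsInvariant (p := p) (d := d) (K := ℂ_[p]) ψ hψ
        (fun f => N f.1) := fun w t f => hI w t f.1 f.2
    have h2 := hD _ hN' hI' ⟨f, hf⟩
    rw [NG_eq] at h2
    rw [← pow_mul, mul_comm (N _)] at h2
    exact h2

end Pool.Agent.Results.MP_3d6eda_nt.MaximalNorm
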